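import Pool.Agent.H86.Cohen2

/-!
# A zero-dimensional subspace of the real line that is not `ℕ`-compact, in a model of `ZF`

We construct a model `(M, E)` of `ZF` and in it a subset `X` of the real line which, with the
subspace topology, is zero-dimensional but not homeomorphic to a closed subspace of `ω^J` for any
set `J` of the model.

The model is (the quotient by a generic sequence of) a symmetric extension of Cohen type; the set
`X` is the complement of the dense set `D` of generic reals.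

All notions below are interpreted in a structure `(M, E)`: `E x y` is read as `x ∈ y`.
-/

namespace Pool.Agent.Results.MP_1eff47_lc.NotNCompact

open Pool.Agent.H86

section Defs

variable {M : Type} (E : M → M → Prop)

/-- `z = {a, b}` -/
def IsUPair (z a b : M) : Prop := ∀ t, E t z ↔ (t = a ∨ t = b)

/-- `z` is the (Kuratowski) ordered pair `(a, b) = {{a}, {a, b}}` -/
def IsPair (z a b : M) : Prop := ∀ w, E w z ↔ (IsUPair E w a a ∨ IsUPair E w a b)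

/-- `(x, y) ∈ f` -/
def Rel (f x y : M) : Prop := ∃ z, IsPair E z x y ∧ E z f

/-- `x` is a transitive set -/
def IsTrans (x : M) : Prop := ∀ y, E y x → ∀ z, E z y → E z x

/-- `x` is an ordinal (a transitive set of transitive sets; the model satisfies foundation) -/
def IsOrd (x : M) : Prop := IsTrans E x ∧ ∀ y, E y x → IsTrans E y

/-- `f` is a function, i.e. a single-valued set of ordered pairs -/
def IsFun (f : M) : Prop :=
  (∀ z, E z f → ∃ x y, IsPair E z x y) ∧ ∀ x y y', Rel E f x y → Rel E f x y' → y = y'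

/-- `f` is injective -/
def IsInj (f : M) : Prop := ∀ x x' y, Rel E f x y → Rel E f x' y → x = x'

/-- `w` is the first infinite ordinal `ω` (so `w` is the set of natural numbers): an ordinal that
contains the empty set and is closed under successors, all of whose elements are empty or
successors -/
def IsOmega (w : M) : Prop :=
  IsOrd E w ∧ (∃ e, E e w ∧ ∀ z, ¬ E z e) ∧
  (∀ y, E y w → ∃ s, E s w ∧ ∀ z, E z s ↔ (E z y ∨ z = y)) ∧
  ∀ y, E y w → ((∀ z, ¬ E z y) ∨ ∃ x, E x y ∧ ∀ z, E z y ↔ (E z x ∨ z = x))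

/-- `L` is (the graph of) a strict linear order on the set `R` -/
def IsLinOrder (R L : M) : Prop :=
  (∀ x y, Rel E L x y → (E x R ∧ E y R)) ∧ (∀ x, ¬ Rel E L x x) ∧
  (∀ x y z, Rel E L x y → Rel E L y z → Rel E L x z) ∧
  ∀ x y, E x R → E y R → (Rel E L x y ∨ x = y ∨ Rel E L y x)

/-- `b` is an upper bound of `S` in the linear order `(R, L)` -/
def IsUB (R L S b : M) : Prop := E b R ∧ ∀ x, E x S → (Rel E L x b ∨ x = b)

/-- `(R, L)` is the real line, as a linearly ordered set: a nonempty densely ordered set without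
endpoints in which every nonempty subset with an upper bound has a least upper bound, and which has
a countable dense subset (the range of a function `e` defined on `ω`). -/
def IsRealLine (w R L : M) : Prop :=
  IsLinOrder E R L ∧ (∃ x, E x R) ∧
  (∀ x y, Rel E L x y → ∃ z, Rel E L x z ∧ Rel E L z y) ∧
  (∀ x, E x R → ((∃ y, Rel E L x y) ∧ ∃ y, Rel E L y x)) ∧
  (∀ S, (∀ x, E x S → E x R) → (∃ x, E x S) → (∃ b, IsUB E R L S b) →
    ∃ s, IsUB E R L S s ∧ ∀ b, IsUB E R L S b → (Rel E L s b ∨ s = b)) ∧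
  ∃ e, IsFun E e ∧ (∀ n, E n w ↔ ∃ x, Rel E e n x) ∧ (∀ n x, Rel E e n x → E x R) ∧
    ∀ x y, Rel E L x y → ∃ n q, Rel E e n q ∧ Rel E L x q ∧ Rel E L q y

/-- `U` is an open subset of the subspace `X` of the line with order `L` (which has no
endpoints): every point of `U` lies in an open interval `(a, b)` with `X ∩ (a, b) ⊆ U` -/
def IsOpenSub (L X U : M) : Prop :=
  (∀ x, E x U → E x X) ∧
  ∀ x, E x U → ∃ a b, Rel E L a x ∧ Rel E L x b ∧
    ∀ z, E z X → Rel E L a z → Rel E L z b → E z U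

/-- the subspace `X` of the line is zero-dimensional: it is `T₁`, and every open set `U` is a
neighbourhood of each of its points `x` witnessed by a clopen `V` (with complement `W` in `X`) -/
def ZeroDim (L X : M) : Prop :=
  (∀ x y, E x X → E y X → x ≠ y → ∃ U, IsOpenSub E L X U ∧ E x U ∧ ¬ E y U) ∧
  ∀ U x, IsOpenSub E L X U → E x U → ∃ V W, IsOpenSub E L X V ∧ IsOpenSub E L X W ∧
    (∀ z, E z W ↔ (E z X ∧ ¬ E z V)) ∧ E x V ∧ ∀ z, E z V → E z U

/-- `y` is a point of `ω^J`, i.e. a function from `J` to `w = ω` -/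
def IsPt (w J y : M) : Prop :=
  IsFun E y ∧ (∀ j, E j J ↔ ∃ n, Rel E y j n) ∧ ∀ j n, Rel E y j n → E n w

/-- `K` is finite: it belongs to every set `F` that contains the empty set and contains `s ∪ {a}`
whenever it contains `s` and `a ∈ K` -/
def IsFinite (K : M) : Prop :=
  ∀ F, (∀ s, (∀ a, ¬ E a s) → E s F) →
    (∀ s t a, E s F → E a K → (∀ b, E b t ↔ (E b s ∨ b = a)) → E t F) → E K F

/-- `V` is an open subset of the product `ω^J` of discrete spaces `ω`: for each point `y ∈ V` there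
is a finite `K ⊆ J` such that all points of `ω^J` that agree with `y` on `K` are in `V` -/
def IsOpenProd (w J V : M) : Prop :=
  (∀ y, E y V → IsPt E w J y) ∧
  ∀ y, E y V → ∃ K, IsFinite E K ∧ (∀ j, E j K → E j J) ∧
    ∀ z, IsPt E w J z → (∀ j, E j K → ∀ n, Rel E y j n ↔ Rel E z j n) → E z V

/-- `C` is a closed subset of `ω^J`: a set of points of `ω^J` whose complement is open -/
def IsClosedProd (w J C : M) : Prop :=
  (∀ y, E y C → IsPt E w J y) ∧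
  ∃ V, IsOpenProd E w J V ∧ ∀ y, E y V ↔ (IsPt E w J y ∧ ¬ E y C)

/-- the subspace `X` of the line is `ℕ`-compact: there are a set `J`, a closed subset `C` of `ω^J`
and a homeomorphism `h` of `X` onto `C`, i.e. a bijection from `X` onto `C` such that a subset of
`X` is open in `X` if and only if it is the preimage under `h` of an open subset of `ω^J` -/
def NCompact (w L X : M) : Prop :=
  ∃ J C h, IsClosedProd E w J C ∧ IsFun E h ∧ IsInj E h ∧
    (∀ x, E x X ↔ ∃ y, Rel E h x y) ∧ (∀ y, E y C ↔ ∃ x, Rel E h x y) ∧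
    ∀ U, (∀ x, E x U → E x X) →
      (IsOpenSub E L X U ↔ ∃ V, IsOpenProd E w J V ∧ ∀ x y, Rel E h x y → (E x U ↔ E y V))

end Defs

section Basic

variable {M : Type} {E : M → M → Prop}

theorem pair_inj (hE : IsZFModel E) {z a b c d : M}
    (h1 : IsPair E z a b) (h2 : IsPair E z c d) : a = c ∧ b = d := by
  have hac : a = c := by
    obtain ⟨s, hs⟩ := hE.pair a a
    have h3 : E s z := (h1 s).2 (Or.inl hs)
    rcases (h2 s).1 h3 with h | h
    · have h4 := (hs c).1 ((h c).2 (Or.inl rfl))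
      rcases h4 with h4 | h4 <;> exact h4.symm
    · have h4 := (hs c).1 ((h c).2 (Or.inl rfl))
      rcases h4 with h4 | h4 <;> exact h4.symm
  refine ⟨hac, ?_⟩
  subst hac
  obtain ⟨u, hu⟩ := hE.pair a b
  obtain ⟨v, hv⟩ := hE.pair a d
  have hu' : E u z := (h1 u).2 (Or.inr hu)
  have hv' : E v z := (h2 v).2 (Or.inr hv)
  have hb : b = a ∨ b = d := by
    rcases (h2 u).1 hu' with h | h
    · have := (h b).1 ((hu b).2 (Or.inr rfl))
      tauto
    · exact (h b).1 ((hu b).2 (Or.inr rfl))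
  have hd : d = a ∨ d = b := by
    rcases (h1 v).1 hv' with h | h
    · have := (h d).1 ((hv d).2 (Or.inr rfl))
      tauto
    · exact (h d).1 ((hv d).2 (Or.inr rfl))
  rcases hb with rfl | hb
  · rcases hd with hd | hd <;> exact hd.symm
  · exact hb

theorem exists_pair (hE : IsZFModel E) (a b : M) : ∃ z, IsPair E z a b := by
  obtain ⟨u, hu⟩ := hE.pair a a
  obtain ⟨v, hv⟩ := hE.pair a b
  obtain ⟨z, hz⟩ := hE.pair u v
  refine ⟨z, fun w => ?_⟩
  rw [hz]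
  constructor
  · rintro (rfl | rfl)
    · exact Or.inl hu
    · exact Or.inr hv
  · rintro (h | h)
    · exact Or.inl (hE.ext _ _ fun t => (h t).trans (hu t).symm)
    · exact Or.inr (hE.ext _ _ fun t => (h t).trans (hv t).symm)

theorem sep1 (hE : IsZFModel E) (φ : Fml) (f : ℕ → M) (a : M) {P : M → Prop}
    (h : ∀ x, φ.eval (propStr E) (upd f 0 x) ↔ P x) : ∃ b, ∀ x, E x b ↔ (E x a ∧ P x) := by
  obtain ⟨b, hb⟩ := hE.sep φ f a
  refine ⟨b, fun x => ?_⟩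
  rw [hb, sat_eq_eval, h]

/-- assignment of parameters (starting with variable 1) -/
def asg (a b c d e : M) : ℕ → M := fun n => match n with
  | 0 => a
  | 1 => a
  | 2 => b
  | 3 => c
  | 4 => d
  | _ => e

end Basic

section Formulas

variable {N : Type*} {Ω : Type*} (L : LogicStr N Ω)

def fProd (z A B : N) : Ω :=
  L.ex fun a => L.ex fun b => L.and (L.mem a A) (L.and (L.mem b B) (fPr L z a b))

def fPt (z J w : N) : Ω :=
  L.and (fFun L z) <| L.and (L.all fun j => L.iff (L.mem j J) (L.ex fun n => fRel L z j n))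
    (L.all fun j => L.all fun n => L.imp (fRel L z j n) (L.mem n w))

def fNotMem (z D : N) : Ω := L.imp (L.mem z D) L.bot

def fNe (z y : N) : Ω := L.imp (L.eq z y) L.bot

def fBtw (z O a b : N) : Ω := L.and (fRel L O a z) (fRel L O z b)

def fNotBtw (z O a b : N) : Ω := L.imp (fBtw L z O a b) L.bot

def fLe (O a b : N) : Ω := L.or (fRel L O a b) (L.eq a b)

/-- `h(x)(j) = n` -/
def fHV (h x j n : N) : Ω := L.ex fun z => L.and (fRel L h x z) (fRel L z j n)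

def fLC (r X O h j : N) : Ω :=
  L.ex fun c => L.ex fun d => L.and (fRel L O c r) <| L.and (fRel L O r d) <|
    L.all fun x => L.all fun x' => L.imp (L.mem x X) <| L.imp (L.mem x' X) <|
      L.imp (fRel L O c x) <| L.imp (fRel L O x d) <| L.imp (fRel L O c x') <|
      L.imp (fRel L O x' d) <| L.all fun n => L.iff (fHV L h x j n) (fHV L h x' j n)

def fNLC (r X O h j : N) : Ω := L.imp (fLC L r X O h j) L.bot

def fLB (r F O q : N) : Ω :=
  L.all fun d => L.imp (L.mem d F) <| L.imp (fLe L O q d) (fLe L O r d)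

def fCS (r X O h j x : N) : Ω :=
  L.and (fLe L O x r) <| L.all fun z => L.imp (L.mem z X) <| L.imp (fLe L O x z) <|
    L.imp (fLe L O z r) <| L.all fun n => L.iff (fHV L h z j n) (fHV L h x j n)

def fG (z F O e : N) : Ω :=
  L.ex fun n => L.ex fun d => L.and (fPr L z n d) <| L.ex fun q => L.and (fRel L e n q) <|
    L.and (fLe L O q d) <| L.all fun d' => L.imp (L.mem d' F) <|
      L.imp (fLe L O q d') (fLe L O d d')

def fY (z R X O h : N) : Ω :=
  L.ex fun j => L.ex fun n => L.and (fPr L z j n) <| L.ex fun b => L.and (L.mem b R) <|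
    L.all fun x => L.imp (L.mem x X) <| L.imp (fRel L O b x) (fHV L h x j n)

def fFam (s R X O h y : N) : Ω :=
  L.ex fun b => L.and (L.mem b R) <|
    L.all fun x => L.imp (L.mem x X) <| L.imp (fRel L O b x) <|
      L.all fun j => L.imp (L.mem j s) <| L.all fun n => L.iff (fRel L y j n) (fHV L h x j n)

def fInc (z : N) : Ω :=
  L.ex fun a => L.ex fun b => L.and (fPr L z a b) <|
    L.and (L.all fun x => L.imp (L.mem x a) (L.mem x b)) (L.imp (L.eq a b) L.bot)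

def fEnum (z O : N) : Ω :=
  L.ex fun q => L.ex fun c => L.and (fPr L z q c) (L.all fun x => L.iff (L.mem x c) (fRel L O x q))

end Formulas

section Basic2

variable {M : Type} {E : M → M → Prop}

theorem exists_prod (hE : IsZFModel E) (A B : M) :
    ∃ P, ∀ z, E z P ↔ ∃ a b, E a A ∧ E b B ∧ IsPair E z a b := by
  obtain ⟨S0, hS0⟩ := hE.pair A B
  obtain ⟨S, hS⟩ := hE.union S0
  obtain ⟨P1, hP1⟩ := hE.power S
  obtain ⟨P2, hP2⟩ := hE.power P1
  obtain ⟨P, hP⟩ := sep1 hE (fProd codeStr 0 1 2 3) (asg A B B B B) P2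
    (P := fun z => ∃ a b, E a A ∧ E b B ∧ IsPair E z a b) (fun z => Iff.rfl)
  refine ⟨P, fun z => (hP z).trans ⟨And.right, fun h => ⟨?_, h⟩⟩⟩
  obtain ⟨a, b, ha, hb, hz⟩ := h
  have haS : E a S := (hS a).2 ⟨A, (hS0 _).2 (Or.inl rfl), ha⟩
  have hbS : E b S := (hS b).2 ⟨B, (hS0 _).2 (Or.inr rfl), hb⟩
  rw [hP2]
  intro w hw
  rw [hP1]
  intro t ht
  rcases (hz w).1 hw with h | h
  · rcases (h t).1 ht with rfl | rfl <;> exact haS
  · rcases (h t).1 ht with rfl | rfl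
    · exact haS
    · exact hbS

theorem exists_rel (hE : IsZFModel E) (A B : M) (φ : Fml) (f : ℕ → M) {P : M → M → Prop}
    (h : ∀ z, φ.eval (propStr E) (upd f 0 z) ↔ ∃ x y, IsPair E z x y ∧ P x y) :
    ∃ r, (∀ z, E z r → ∃ x y, IsPair E z x y) ∧
      ∀ x y, Rel E r x y ↔ (E x A ∧ E y B ∧ P x y) := by
  obtain ⟨C, hC⟩ := exists_prod hE A B
  obtain ⟨r, hr⟩ := sep1 hE φ f C h
  refine ⟨r, fun z hz => ?_, fun x y => ⟨?_, ?_⟩⟩
  · obtain ⟨_, x, y, hp, _⟩ := (hr z).1 hz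
    exact ⟨x, y, hp⟩
  · rintro ⟨z, hz1, hz2⟩
    obtain ⟨hz3, x', y', hp, hP⟩ := (hr z).1 hz2
    obtain ⟨a, b, ha, hb, hp'⟩ := (hC z).1 hz3
    obtain ⟨rfl, rfl⟩ := pair_inj hE hz1 hp
    obtain ⟨rfl, rfl⟩ := pair_inj hE hz1 hp'
    exact ⟨ha, hb, hP⟩
  · rintro ⟨ha, hb, hP⟩
    obtain ⟨z, hz⟩ := exists_pair hE x y
    exact ⟨z, hz, (hr z).2 ⟨(hC z).2 ⟨x, y, ha, hb, hz⟩, x, y, hz, hP⟩⟩

theorem exists_funs (hE : IsZFModel E) (J w : M) : ∃ P, ∀ z, E z P ↔ IsPt E w J z := by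
  obtain ⟨C, hC⟩ := exists_prod hE J w
  obtain ⟨P1, hP1⟩ := hE.power C
  obtain ⟨P, hP⟩ := sep1 hE (fPt codeStr 0 1 2 3) (asg J w w w w) P1
    (P := fun z => IsPt E w J z) (fun z => Iff.rfl)
  refine ⟨P, fun z => (hP z).trans ⟨And.right, fun h => ⟨?_, h⟩⟩⟩
  rw [hP1]
  intro t ht
  obtain ⟨x, y, hxy⟩ := h.1.1 t ht
  rw [hC]
  exact ⟨x, y, (h.2.1 x).2 ⟨y, t, hxy, ht⟩, h.2.2 x y ⟨t, hxy, ht⟩, hxy⟩

end Basic2

section Line

variable {M : Type} {E : M → M → Prop}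

/-- the linear order on the type of elements of `R` -/
@[reducible] noncomputable def lo {R L : M} (h : IsLinOrder E R L) :
    LinearOrder {r : M // E r R} where
  le a b := Rel E L a.1 b.1 ∨ a.1 = b.1
  lt a b := Rel E L a.1 b.1
  le_refl a := Or.inr rfl
  le_trans a b c h1 h2 := by
    rcases h1 with h1 | h1
    · rcases h2 with h2 | h2
      · exact Or.inl (h.2.2.1 _ _ _ h1 h2)
      · rw [← h2]; exact Or.inl h1
    · rw [h1]; exact h2
  lt_iff_le_not_ge a b := by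
    constructor
    · intro h1
      refine ⟨Or.inl h1, ?_⟩
      rintro (h2 | h2)
      · exact h.2.1 _ (h.2.2.1 _ _ _ h1 h2)
      · rw [h2] at h1; exact h.2.1 _ h1
    · rintro ⟨h1 | h1, h2⟩
      · exact h1
      · exact (h2 (Or.inr h1.symm)).elim
  le_antisymm a b h1 h2 := by
    rcases h1 with h1 | h1
    · rcases h2 with h2 | h2
      · exact (h.2.1 _ (h.2.2.1 _ _ _ h1 h2)).elim
      · exact Subtype.ext h2.symm
    · exact Subtype.ext h1
  le_total a b := by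
    rcases h.2.2.2 a.1 b.1 a.2 b.2 with h1 | h1 | h1
    · exact Or.inl (Or.inl h1)
    · exact Or.inl (Or.inr h1)
    · exact Or.inr (Or.inl h1)
  toDecidableLE := Classical.decRel _

/-- the value `h(x)(j)` is `n` -/
def HV (E : M → M → Prop) (h x j n : M) : Prop := ∃ z, Rel E h x z ∧ Rel E z j n

/-- the function `x ↦ h(x)(j)` is constant on `X ∩ (c, d)` for some `c < r < d` -/
def LC (E : M → M → Prop) (X L h j r : M) : Prop :=
  ∃ c d, Rel E L c r ∧ Rel E L r d ∧ ∀ x x', E x X → E x' X → Rel E L c x → Rel E L x d →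
    Rel E L c x' → Rel E L x' d → ∀ n, HV E h x j n ↔ HV E h x' j n

theorem exists_sup {w R L : M} (hR : IsRealLine E w R L) (S : M) (hS : ∀ x, E x S → E x R) :
    letI := lo hR.1
    ∀ x b : {r : M // E r R}, E x.1 S → (∀ y : {r : M // E r R}, E y.1 S → y ≤ b) →
      ∃ s : {r : M // E r R}, (∀ y : {r : M // E r R}, E y.1 S → y ≤ s) ∧
        ∀ b : {r : M // E r R}, (∀ y : {r : M // E r R}, E y.1 S → y ≤ b) → s ≤ b := by
  let _ := lo hR.1
  intro x b hx hb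
  obtain ⟨s, hs1, hs2⟩ := hR.2.2.2.2.1 S hS ⟨x.1, hx⟩
    ⟨b.1, b.2, fun y hy => hb ⟨y, hS y hy⟩ hy⟩
  exact ⟨⟨s, hs1.1⟩, fun y hy => hs1.2 y.1 hy, fun b hb =>
    hs2 b.1 ⟨b.2, fun y hy => hb ⟨y, hS y hy⟩ hy⟩⟩

theorem exists_bound (hE : IsZFModel E) {w R L D X : M} (hR : IsRealLine E w R L)
    (hX : ∀ x, E x X ↔ (E x R ∧ ¬ E x D))
    (hb : ∀ g, IsFun E g → (∀ n, E n w → ∃ d, Rel E g n d) →
      (∀ n d, Rel E g n d → (E n w ∧ E d D)) → ∃ b, E b R ∧ ∀ n d, Rel E g n d → Rel E L d b)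
    {h j : M} (hc : ∀ x, E x X → LC E X L h j x) :
    ∃ a, E a R ∧ ∀ r, Rel E L a r → LC E X L h j r := by
  by_contra hcon
  push Not at hcon
  let _ := lo hR.1
  obtain ⟨F, hF⟩ := sep1 hE (fNLC codeStr 0 1 2 3 4 5) (asg X L h j j) R
    (P := fun r => ¬ LC E X L h j r) (fun z => Iff.rfl)
  have hunb : ∀ q : {r : M // E r R}, ∃ d : {r : M // E r R}, E d.1 F ∧ q < d := by
    intro q
    obtain ⟨d, hd1, hd2⟩ := hcon q.1 q.2
    have hdR := (hR.1.1 _ _ hd1).2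
    exact ⟨⟨d, hdR⟩, (hF d).2 ⟨hdR, hd2⟩, hd1⟩
  -- least elements
  have hmin : ∀ q : {r : M // E r R}, ∃ d : {r : M // E r R}, E d.1 F ∧ q ≤ d ∧
      ∀ d' : {r : M // E r R}, E d'.1 F → q ≤ d' → d ≤ d' := by
    intro q
    obtain ⟨S, hS⟩ := sep1 hE (fLB codeStr 0 1 2 3 4) (asg F L q.1 q.1 q.1) R
      (P := fun r => ∀ d, E d F → (Rel E L q.1 d ∨ q.1 = d) → (Rel E L r d ∨ r = d))
      (fun z => Iff.rfl)
    have hS' : ∀ r : {r : M // E r R}, E r.1 S ↔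
        ∀ d : {r : M // E r R}, E d.1 F → q ≤ d → r ≤ d := by
      intro r
      rw [hS]
      constructor
      · rintro ⟨_, h⟩ d hd hqd
        exact h d.1 hd hqd
      · intro h
        refine ⟨r.2, fun d hd hqd => h ⟨d, ((hF d).1 hd).1⟩ hd hqd⟩
    obtain ⟨d0, hd0, hqd0⟩ := hunb q
    have hqS : E q.1 S := (hS' q).2 fun d _ h => h
    obtain ⟨s, hs1, hs2⟩ := exists_sup hR S (fun x hx => ((hS x).1 hx).1) q d0 hqS
      (fun y hy => (hS' y).1 hy d0 hd0 hqd0.le)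
    have hqs : q ≤ s := hs1 q hqS
    have hsF : ∀ d : {r : M // E r R}, E d.1 F → q ≤ d → s ≤ d := fun d hd hqd =>
      hs2 d fun y hy => (hS' y).1 hy d hd hqd
    refine ⟨s, ?_, hqs, hsF⟩
    rw [hF]
    refine ⟨s.2, ?_⟩
    rintro ⟨a, b, ha, hb', hab⟩
    have hbR := (hR.1.1 _ _ hb').2
    have hbS : E (⟨b, hbR⟩ : {r : M // E r R}).1 S := by
      rw [hS']
      intro d hd hqd
      by_contra hlt
      have hlt' : Rel E L d.1 b := not_le.1 hlt
      have hsd := hsF d hd hqd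
      have had : Rel E L a d.1 := by
        have haR := (hR.1.1 _ _ ha).1
        have h1 : (⟨a, haR⟩ : {r : M // E r R}) < s := ha
        exact h1.trans_le hsd
      exact ((hF _).1 hd).2 ⟨a, b, had, hlt', hab⟩
    have h1 := hs1 _ hbS
    have h2 : s < (⟨b, hbR⟩ : {r : M // E r R}) := hb'
    exact absurd h1 (not_le.2 h2)
  obtain ⟨e, he1, he2, he3, he4⟩ := hR.2.2.2.2.2
  obtain ⟨g, hg1, hg2⟩ := exists_rel hE w F (fG codeStr 0 1 2 3 4) (asg F L e e e)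
    (P := fun n d => ∃ q, Rel E e n q ∧ (Rel E L q d ∨ q = d) ∧
      ∀ d', E d' F → (Rel E L q d' ∨ q = d') → (Rel E L d d' ∨ d = d')) (fun z => Iff.rfl)
  have hFD : ∀ d, E d F → E d D := by
    intro d hd
    obtain ⟨hdR, hd2⟩ := (hF d).1 hd
    by_contra hdD
    exact hd2 (hc d ((hX d).2 ⟨hdR, hdD⟩))
  have hgfun : IsFun E g := by
    refine ⟨hg1, ?_⟩
    intro n d d' hd hd'
    obtain ⟨hn, hdF, q, hq1, hq2, hq3⟩ := (hg2 n d).1 hd
    obtain ⟨_, hdF', q', hq1', hq2', hq3'⟩ := (hg2 n d').1 hd'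
    have e1 : q = q' := he1.2 n q q' hq1 hq1'
    subst e1
    have h1 := hq3 d' hdF' hq2'
    have h2 := hq3' d hdF hq2
    have hdR := ((hF d).1 hdF).1
    have hdR' := ((hF d').1 hdF').1
    have h3 : (⟨d, hdR⟩ : {r : M // E r R}) ≤ ⟨d', hdR'⟩ := h1
    have h4 : (⟨d', hdR'⟩ : {r : M // E r R}) ≤ ⟨d, hdR⟩ := h2
    exact congrArg Subtype.val (le_antisymm h3 h4)
  have hgdom : ∀ n, E n w → ∃ d, Rel E g n d := by
    intro n hn
    obtain ⟨q, hq⟩ := (he2 n).1 hn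
    obtain ⟨d, hd1, hd2, hd3⟩ := hmin ⟨q, he3 n q hq⟩
    exact ⟨d.1, (hg2 n d.1).2 ⟨hn, hd1, q, hq, hd2,
      fun d' hd' hqd' => hd3 ⟨d', ((hF d').1 hd').1⟩ hd' hqd'⟩⟩
  have hgran : ∀ n d, Rel E g n d → (E n w ∧ E d D) := by
    intro n d hd
    obtain ⟨hn, hdF, _⟩ := (hg2 n d).1 hd
    exact ⟨hn, hFD d hdF⟩
  obtain ⟨b, hbR, hb2⟩ := hb g hgfun hgdom hgran
  obtain ⟨c, hc1⟩ := (hR.2.2.2.1 b hbR).1
  obtain ⟨n, q, hnq, hbq, hqc⟩ := he4 b c hc1
  have hqR := he3 n q hnq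
  obtain ⟨d, hd1, hd2, hd3⟩ := hmin ⟨q, hqR⟩
  have hnd : Rel E g n d.1 := (hg2 n d.1).2 ⟨(he2 n).2 ⟨q, hnq⟩, hd1, q, hnq, hd2,
    fun d' hd' hqd' => hd3 ⟨d', ((hF d').1 hd').1⟩ hd' hqd'⟩
  have h1 : d < ⟨b, hbR⟩ := hb2 n d.1 hnd
  have h2 : (⟨b, hbR⟩ : {r : M // E r R}) < ⟨q, hqR⟩ := hbq
  exact absurd (h1.trans (h2.trans_le hd2)) (lt_irrefl _)

/-- a function that is locally constant on `(a, ∞)` is constant on `X ∩ (a, ∞)` -/
theorem const_of_lc (hE : IsZFModel E) {w R L X : M} (hR : IsRealLine E w R L)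
    (hXR : ∀ x, E x X → E x R)
    (hXd : ∀ x y, Rel E L x y → ∃ z, E z X ∧ Rel E L x z ∧ Rel E L z y)
    {h j a : M} (ha : ∀ r, Rel E L a r → LC E X L h j r) {x y : M} (hx : E x X) (hy : E y X)
    (hax : Rel E L a x) (hxy : Rel E L x y) (n : M) : HV E h x j n ↔ HV E h y j n := by
  let _ := lo hR.1
  by_contra hne
  obtain ⟨S, hS⟩ := sep1 hE (fCS codeStr 0 1 2 3 4 5 6) (asg X L h j x) R
    (P := fun r => (Rel E L x r ∨ x = r) ∧ ∀ z, E z X → (Rel E L x z ∨ x = z) →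
      (Rel E L z r ∨ z = r) → ∀ n, HV E h z j n ↔ HV E h x j n) (fun z => Iff.rfl)
  set x' : {r : M // E r R} := ⟨x, hXR x hx⟩ with hx'
  set y' : {r : M // E r R} := ⟨y, hXR y hy⟩ with hy'
  have hS' : ∀ r : {r : M // E r R}, E r.1 S ↔ x' ≤ r ∧ ∀ z : {r : M // E r R}, E z.1 X →
      x' ≤ z → z ≤ r → ∀ n, HV E h z.1 j n ↔ HV E h x j n := by
    intro r
    rw [hS]
    constructor
    · rintro ⟨_, h1, h2⟩
      exact ⟨h1, fun z hz => h2 z.1 hz⟩
    · rintro ⟨h1, h2⟩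
      exact ⟨r.2, h1, fun z hz => h2 ⟨z, hXR z hz⟩ hz⟩
  have hxS : E x'.1 S := by
    rw [hS']
    refine ⟨le_rfl, fun z hz h1 h2 n => ?_⟩
    have : z = x' := le_antisymm h2 h1
    rw [this]
  have hub : ∀ r : {r : M // E r R}, E r.1 S → r ≤ y' := by
    intro r hr
    by_contra hlt
    exact hne (((hS' r).1 hr).2 y' hy (le_of_lt hxy) (not_le.1 hlt).le n).symm
  obtain ⟨s, hs1, hs2⟩ := exists_sup hR S (fun z hz => ((hS z).1 hz).1) x' y' hxS hub
  have hxs : x' ≤ s := hs1 x' hxS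
  have haR := (hR.1.1 _ _ hax).1
  have has : (⟨a, haR⟩ : {r : M // E r R}) < s := lt_of_lt_of_le (show _ < x' from hax) hxs
  obtain ⟨c, d, hc, hd, hcd⟩ := ha s.1 has
  set c' : {r : M // E r R} := ⟨c, (hR.1.1 _ _ hc).1⟩ with hc'
  set d' : {r : M // E r R} := ⟨d, (hR.1.1 _ _ hd).2⟩ with hd'
  have hcs : c' < s := hc
  have hsd : s < d' := hd
  -- an element of `S` above `c`
  obtain ⟨r, hrS, hcr⟩ : ∃ r : {r : M // E r R}, E r.1 S ∧ c' < r := by
    by_contra hcon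
    push Not at hcon
    exact absurd (hs2 c' hcon) (not_le.2 hcs)
  have hrs : r ≤ s := hs1 r hrS
  obtain ⟨hxr, hr2⟩ := (hS' r).1 hrS
  -- the constant value on `(c, d)`
  have hval : ∀ z : {r : M // E r R}, E z.1 X → c' < z → z < d' →
      ∀ n, HV E h z.1 j n ↔ HV E h x j n := by
    rcases hxr.lt_or_eq with h1 | h1
    · have h2 : max c' x' < r := max_lt hcr h1
      obtain ⟨z0, hz0X, hz01, hz02⟩ := hXd _ _ h2
      set z0' : {r : M // E r R} := ⟨z0, hXR _ hz0X⟩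
      have h3 : max c' x' < z0' := hz01
      have h4 : z0' < r := hz02
      intro z hz hcz hzd n
      rw [hcd z.1 z0 hz hz0X hcz hzd (lt_of_le_of_lt (le_max_left _ _) h3)
        (lt_of_lt_of_le h4 (hrs.trans hsd.le)) n]
      exact hr2 z0' hz0X ((le_max_right _ _).trans h3.le) h4.le n
    · intro z hz hcz hzd n
      refine hcd z.1 x hz hx hcz hzd ?_ ?_ n
      · show c' < x'
        rw [h1]; exact hcr
      · show x' < d'
        exact lt_of_le_of_lt hxs hsd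
  -- a point of `S` above `s`
  obtain ⟨t, ht1, ht2⟩ := hR.2.2.1 _ _ hd
  set t' : {r : M // E r R} := ⟨t, (hR.1.1 _ _ ht1).2⟩
  have hst : s < t' := ht1
  have htd : t' < d' := ht2
  have htS : E t'.1 S := by
    rw [hS']
    refine ⟨hxs.trans hst.le, fun z hz h1 h2 n => ?_⟩
    rcases le_or_gt z c' with h3 | h3
    · exact hr2 z hz h1 (h3.trans hcr.le) n
    · exact hval z hz h3 (h2.trans_lt htd) n
  exact absurd (hs1 t' htS) (not_le.2 hst)

/-- **The abstract argument.** Let `D` be a subset of the real line with dense complement `X`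
such that every function from `ω` to `D` is bounded. Then `X` is not `ℕ`-compact. -/
theorem not_ncompact (hE : IsZFModel E) {w R L D X : M} (hR : IsRealLine E w R L)
    (hX : ∀ x, E x X ↔ (E x R ∧ ¬ E x D))
    (hXd : ∀ x y, Rel E L x y → ∃ z, E z X ∧ Rel E L x z ∧ Rel E L z y)
    (hb : ∀ g, IsFun E g → (∀ n, E n w → ∃ d, Rel E g n d) →
      (∀ n d, Rel E g n d → (E n w ∧ E d D)) → ∃ b, E b R ∧ ∀ n d, Rel E g n d → Rel E L d b) :
    ¬ NCompact E w L X := by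
  rintro ⟨J, C, h, hC, hfun, hinj, hdom, hran, hopen⟩
  have hXR : ∀ x, E x X → E x R := fun x hx => ((hX x).1 hx).1
  have hpt : ∀ x z, Rel E h x z → IsPt E w J z := fun x z hxz => hC.1 z ((hran z).2 ⟨x, hxz⟩)
  have hv_iff : ∀ x z, Rel E h x z → ∀ j n, HV E h x j n ↔ Rel E z j n := by
    intro x z hxz j n
    constructor
    · rintro ⟨z', hz', h1⟩
      rwa [hfun.2 x z z' hxz hz']
    · intro h1
      exact ⟨z, hxz, h1⟩
  have hv_ex : ∀ x, E x X → ∀ j, E j J → ∃ n, HV E h x j n := by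
    intro x hx j hj
    obtain ⟨z, hz⟩ := (hdom x).1 hx
    obtain ⟨n, hn⟩ := ((hpt x z hz).2.1 j).1 hj
    exact ⟨n, z, hz, hn⟩
  have hv_un : ∀ x j n n', HV E h x j n → HV E h x j n' → n = n' := by
    rintro x j n n' ⟨z, hz, h1⟩ ⟨z', hz', h2⟩
    have e := hfun.2 x z z' hz hz'
    subst e
    exact (hpt x z hz).1.2 j n n' h1 h2
  have hv_w : ∀ x j n, HV E h x j n → E n w := by
    rintro x j n ⟨z, hz, h1⟩
    exact (hpt x z hz).2.2 j n h1
  obtain ⟨P, hP⟩ := exists_funs hE J w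
  -- local constancy at the points of `X`
  have hcont : ∀ j, E j J → ∀ x, E x X → LC E X L h j x := by
    intro j hj x hx
    obtain ⟨n, hn⟩ := hv_ex x hx j hj
    obtain ⟨V, hV⟩ := sep1 hE (fRel codeStr 0 1 2 3) (asg j n n n n) P
      (P := fun z => Rel E z j n) (fun z => Iff.rfl)
    have hVo : IsOpenProd E w J V := by
      refine ⟨fun y hy => (hP y).1 ((hV y).1 hy).1, fun y hy => ?_⟩
      obtain ⟨K, hK⟩ := hE.pair j j
      refine ⟨K, ?_, ?_, ?_⟩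
      · intro F h0 h1
        obtain ⟨s, hs⟩ := sep1 hE .bot (asg j j j j j) j (P := fun _ => False) (fun z => Iff.rfl)
        refine h1 s K j (h0 s fun a ha => ((hs a).1 ha).2) ((hK j).2 (Or.inl rfl)) fun b => ?_
        rw [hK]
        constructor
        · rintro (h2 | h2) <;> exact Or.inr h2
        · rintro (h2 | h2)
          · exact ((hs b).1 h2).2.elim
          · exact Or.inl h2
      · intro i hi
        rcases (hK i).1 hi with rfl | rfl <;> exact hj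
      · intro z hz hag
        exact (hV z).2 ⟨(hP z).2 hz, (hag j ((hK j).2 (Or.inl rfl)) n).1 ((hV y).1 hy).2⟩
    obtain ⟨U, hU⟩ := sep1 hE (fHV codeStr 1 0 2 3 4) (asg h j n n n) X
      (P := fun x => HV E h x j n) (fun z => Iff.rfl)
    have hUo : IsOpenSub E L X U := by
      refine (hopen U (fun x hx => ((hU x).1 hx).1)).2 ⟨V, hVo, fun x z hxz => ?_⟩
      rw [hU, hV, hv_iff x z hxz, hP]
      exact ⟨fun h1 => ⟨hpt x z hxz, h1.2⟩, fun h1 => ⟨(hdom x).2 ⟨z, hxz⟩, h1.2⟩⟩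
    obtain ⟨a, b, ha, hb', hab⟩ := hUo.2 x ((hU x).2 ⟨hx, hn⟩)
    refine ⟨a, b, ha, hb', fun x1 x2 h1 h2 h3 h4 h5 h6 m => ?_⟩
    have e1 := ((hU x1).1 (hab x1 h1 h3 h4)).2
    have e2 := ((hU x2).1 (hab x2 h2 h5 h6)).2
    constructor
    · intro h7
      rw [← hv_un _ _ _ _ e1 h7]; exact e2
    · intro h7
      rw [← hv_un _ _ _ _ e2 h7]; exact e1
  -- eventual constancy
  have hev : ∀ j, E j J → ∃ b, E b R ∧ ∀ x x', E x X → E x' X → Rel E L b x → Rel E L b x' →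
      ∀ n, HV E h x j n ↔ HV E h x' j n := by
    intro j hj
    obtain ⟨a, haR, ha⟩ := exists_bound hE hR hX hb (hcont j hj)
    refine ⟨a, haR, fun x x' hx hx' hax hax' n => ?_⟩
    rcases hR.1.2.2.2 x x' (hXR x hx) (hXR x' hx') with h1 | h1 | h1
    · exact const_of_lc hE hR hXR hXd ha hx hx' hax h1 n
    · rw [h1]
    · exact (const_of_lc hE hR hXR hXd ha hx' hx hax' h1 n).symm
  have hXunb : ∀ b, E b R → ∃ x, E x X ∧ Rel E L b x := by
    intro b hbR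
    obtain ⟨c, hc⟩ := (hR.2.2.2.1 b hbR).1
    obtain ⟨z, hz, h1, _⟩ := hXd b c hc
    exact ⟨z, hz, h1⟩
  have hmax : ∀ b c, E b R → E c R → ∃ d, E d R ∧ ∀ x, Rel E L d x → (Rel E L b x ∧ Rel E L c x) := by
    intro b c hbR hcR
    rcases hR.1.2.2.2 b c hbR hcR with h1 | h1 | h1
    · exact ⟨c, hcR, fun x hx => ⟨hR.1.2.2.1 _ _ _ h1 hx, hx⟩⟩
    · subst h1
      exact ⟨b, hbR, fun x hx => ⟨hx, hx⟩⟩
    · exact ⟨b, hbR, fun x hx => ⟨hx, hR.1.2.2.1 _ _ _ h1 hx⟩⟩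
  -- the limit point
  obtain ⟨y, hy1, hy2⟩ := exists_rel hE J w (fY codeStr 0 1 2 3 4 5) (asg R X L h h)
    (P := fun j n => ∃ b, E b R ∧ ∀ x, E x X → Rel E L b x → HV E h x j n) (fun z => Iff.rfl)
  have hypt : IsPt E w J y := by
    refine ⟨⟨hy1, ?_⟩, ?_, ?_⟩
    · intro j n n' hn hn'
      obtain ⟨_, _, b, hbR, hb2⟩ := (hy2 j n).1 hn
      obtain ⟨_, _, c, hcR, hc2⟩ := (hy2 j n').1 hn'
      obtain ⟨d, hdR, hd⟩ := hmax b c hbR hcR
      obtain ⟨x, hx, hdx⟩ := hXunb d hdR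
      exact hv_un x j n n' (hb2 x hx (hd x hdx).1) (hc2 x hx (hd x hdx).2)
    · intro j
      constructor
      · intro hj
        obtain ⟨b, hbR, hb2⟩ := hev j hj
        obtain ⟨x, hx, hbx⟩ := hXunb b hbR
        obtain ⟨n, hn⟩ := hv_ex x hx j hj
        exact ⟨n, (hy2 j n).2 ⟨hj, hv_w x j n hn, b, hbR, fun x' hx' hbx' =>
          (hb2 x x' hx hx' hbx hbx' n).1 hn⟩⟩
      · rintro ⟨n, hn⟩
        exact ((hy2 j n).1 hn).1
    · intro j n hn
      exact ((hy2 j n).1 hn).2.1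
  -- agreement with the limit on finite sets
  have hag : ∀ K, IsFinite E K → (∀ j, E j K → E j J) → ∃ b, E b R ∧ ∀ x, E x X → Rel E L b x →
      ∀ j, E j K → ∀ n, Rel E y j n ↔ HV E h x j n := by
    intro K hK hKJ
    obtain ⟨PJ, hPJ⟩ := hE.power J
    obtain ⟨Fam, hFam⟩ := sep1 hE (fFam codeStr 0 1 2 3 4 5 6) (asg R X L h y) PJ
      (P := fun s => ∃ b, E b R ∧ ∀ x, E x X → Rel E L b x →
        ∀ j, E j s → ∀ n, Rel E y j n ↔ HV E h x j n) (fun z => Iff.rfl)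
    refine ((hFam K).1 (hK Fam ?_ ?_)).2
    · intro s hs
      obtain ⟨b, hbR⟩ := hR.2.1
      exact (hFam s).2 ⟨(hPJ s).2 fun a ha => (hs a ha).elim, b, hbR,
        fun x _ _ j hj => (hs j hj).elim⟩
    · intro s t a hs ha ht
      obtain ⟨hsJ, b, hbR, hb2⟩ := (hFam s).1 hs
      have haJ := hKJ a ha
      obtain ⟨n, hn⟩ := (hypt.2.1 a).1 haJ
      obtain ⟨_, _, c, hcR, hc2⟩ := (hy2 a n).1 hn
      obtain ⟨d, hdR, hd⟩ := hmax b c hbR hcR
      refine (hFam t).2 ⟨(hPJ t).2 fun i hi => ?_, d, hdR, fun x hx hdx j hj m => ?_⟩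
      · rcases (ht i).1 hi with h1 | h1
        · exact (hPJ s).1 hsJ i h1
        · rw [h1]; exact haJ
      · rcases (ht j).1 hj with h1 | h1
        · exact hb2 x hx (hd x hdx).1 j h1 m
        · subst h1
          have h2 := hc2 x hx (hd x hdx).2
          constructor
          · intro h3
            rw [hypt.1.2 j m n h3 hn]; exact h2
          · intro h3
            rw [hv_un x j m n h3 h2]; exact hn
  have hyC : E y C := by
    by_contra hyC
    obtain ⟨V, hV, hVC⟩ := hC.2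
    obtain ⟨K, hK1, hK2, hK3⟩ := hV.2 y ((hVC y).2 ⟨hypt, hyC⟩)
    obtain ⟨b, hbR, hb2⟩ := hag K hK1 hK2
    obtain ⟨x, hx, hbx⟩ := hXunb b hbR
    obtain ⟨z, hz⟩ := (hdom x).1 hx
    have h1 := hK3 z (hpt x z hz)
      (fun j hj n => (hb2 x hx hbx j hj n).trans (hv_iff x z hz j n))
    exact ((hVC z).1 h1).2 ((hran z).2 ⟨x, hz⟩)
  obtain ⟨x0, hx0⟩ := (hran y).1 hyC
  have hx0X := (hdom x0).2 ⟨y, hx0⟩
  obtain ⟨b0, hb0⟩ := (hR.2.2.2.1 x0 (hXR x0 hx0X)).1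
  obtain ⟨U, hU⟩ := sep1 hE (fRel codeStr 1 0 2 3) (asg L b0 b0 b0 b0) X
    (P := fun x => Rel E L x b0) (fun z => Iff.rfl)
  have hUo : IsOpenSub E L X U := by
    refine ⟨fun x hx => ((hU x).1 hx).1, fun x hx => ?_⟩
    obtain ⟨hxX, hxb⟩ := (hU x).1 hx
    obtain ⟨a, ha⟩ := (hR.2.2.2.1 x (hXR x hxX)).2
    exact ⟨a, b0, ha, hxb, fun z hz _ hzb => (hU z).2 ⟨hz, hzb⟩⟩
  obtain ⟨V, hV, hUV⟩ := (hopen U (fun x hx => ((hU x).1 hx).1)).1 hUo
  obtain ⟨K, hK1, hK2, hK3⟩ := hV.2 y ((hUV x0 y hx0).1 ((hU x0).2 ⟨hx0X, hb0⟩))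
  obtain ⟨b, hbR, hb2⟩ := hag K hK1 hK2
  obtain ⟨d, hdR, hd⟩ := hmax b b0 hbR (hR.1.1 _ _ hb0).2
  obtain ⟨x, hx, hdx⟩ := hXunb d hdR
  obtain ⟨hbx, hb0x⟩ := hd x hdx
  obtain ⟨z, hz⟩ := (hdom x).1 hx
  have hzV := hK3 z (hpt x z hz)
    (fun j hj n => (hb2 x hx hbx j hj n).trans (hv_iff x z hz j n))
  have hxU := (hUV x z hz).2 hzV
  exact hR.1.2.1 _ (hR.1.2.2.1 _ _ _ hb0x ((hU x).1 hxU).2)

/-- If both `D` and its complement `X` are dense in the line then `X` is zero-dimensional. -/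
theorem zeroDim (hE : IsZFModel E) {w R L D X : M} (hR : IsRealLine E w R L)
    (hX : ∀ x, E x X ↔ (E x R ∧ ¬ E x D))
    (hDd : ∀ x y, Rel E L x y → ∃ z, E z D ∧ Rel E L x z ∧ Rel E L z y) :
    ZeroDim E L X := by
  have hXR : ∀ x, E x X → E x R := fun x hx => ((hX x).1 hx).1
  have hup : ∀ x, E x X → ∃ y, Rel E L x y := fun x hx => (hR.2.2.2.1 x (hXR x hx)).1
  have hdn : ∀ x, E x X → ∃ y, Rel E L y x := fun x hx => (hR.2.2.2.1 x (hXR x hx)).2
  constructor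
  · intro x y hx hy hxy
    obtain ⟨U, hU⟩ := sep1 hE (fNe codeStr 0 1 2) (asg y y y y y) X
      (P := fun z => ¬ z = y) (fun z => Iff.rfl)
    refine ⟨U, ⟨fun z hz => ((hU z).1 hz).1, fun z hz => ?_⟩, (hU x).2 ⟨hx, hxy⟩,
      fun h => ((hU y).1 h).2 rfl⟩
    obtain ⟨hzX, hzy⟩ := (hU z).1 hz
    obtain ⟨a, ha⟩ := hdn z hzX
    obtain ⟨b, hb⟩ := hup z hzX
    rcases hR.1.2.2.2 z y (hXR z hzX) (hXR y hy) with h1 | h1 | h1
    · refine ⟨a, y, ha, h1, fun t ht _ hty => (hU t).2 ⟨ht, ?_⟩⟩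
      rintro rfl
      exact hR.1.2.1 _ hty
    · exact (hzy h1).elim
    · refine ⟨y, b, h1, hb, fun t ht hyt _ => (hU t).2 ⟨ht, ?_⟩⟩
      rintro rfl
      exact hR.1.2.1 _ hyt
  · intro U x hU hx
    obtain ⟨a, b, hax, hxb, hab⟩ := hU.2 x hx
    have hxX := hU.1 x hx
    obtain ⟨d, hdD, had, hdx⟩ := hDd a x hax
    obtain ⟨d', hdD', hxd', hdb'⟩ := hDd x b hxb
    obtain ⟨V, hV⟩ := sep1 hE (fBtw codeStr 0 1 2 3 4) (asg L d d' d' d') X
      (P := fun z => Rel E L d z ∧ Rel E L z d') (fun z => Iff.rfl)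
    obtain ⟨W, hW⟩ := sep1 hE (fNotBtw codeStr 0 1 2 3 4) (asg L d d' d' d') X
      (P := fun z => ¬ (Rel E L d z ∧ Rel E L z d')) (fun z => Iff.rfl)
    refine ⟨V, W, ⟨fun z hz => ((hV z).1 hz).1, fun z hz => ?_⟩,
      ⟨fun z hz => ((hW z).1 hz).1, fun z hz => ?_⟩, fun z => ?_, (hV x).2 ⟨hxX, hdx, hxd'⟩,
      fun z hz => ?_⟩
    · obtain ⟨_, h1, h2⟩ := (hV z).1 hz
      exact ⟨d, d', h1, h2, fun t ht h3 h4 => (hV t).2 ⟨ht, h3, h4⟩⟩
    · obtain ⟨hzX, hz2⟩ := (hW z).1 hz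
      have hdR := (hR.1.1 _ _ hdx).1
      have hdR' := (hR.1.1 _ _ hxd').2
      rcases hR.1.2.2.2 z d (hXR z hzX) hdR with h1 | h1 | h1
      · obtain ⟨c, hc⟩ := hdn z hzX
        refine ⟨c, d, hc, h1, fun t ht _ htd => (hW t).2 ⟨ht, fun h => ?_⟩⟩
        exact hR.1.2.1 _ (hR.1.2.2.1 _ _ _ h.1 htd)
      · rw [h1] at hzX
        exact (((hX d).1 hzX).2 hdD).elim
      · rcases hR.1.2.2.2 z d' (hXR z hzX) hdR' with h2 | h2 | h2
        · exact (hz2 ⟨h1, h2⟩).elim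
        · rw [h2] at hzX
          exact (((hX d').1 hzX).2 hdD').elim
        · obtain ⟨c, hc⟩ := hup z hzX
          refine ⟨d', c, h2, hc, fun t ht hdt _ => (hW t).2 ⟨ht, fun h => ?_⟩⟩
          exact hR.1.2.1 _ (hR.1.2.2.1 _ _ _ h.2 hdt)
    · rw [hW, hV]
      constructor
      · rintro ⟨h1, h2⟩
        exact ⟨h1, fun h3 => h2 h3.2⟩
      · rintro ⟨h1, h2⟩
        exact ⟨h1, fun h3 => h2 ⟨h1, h3⟩⟩
    · obtain ⟨hzX, h1, h2⟩ := (hV z).1 hz
      exact hab z hzX (hR.1.2.2.1 _ _ _ had h1) (hR.1.2.2.1 _ _ _ h2 hdb')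

end Line

section Cuts

variable {M : Type} {E : M → M → Prop}

/-- `(w, O)` is a strict dense linear order without endpoints -/
structure IsDLO (E : M → M → Prop) (w O : M) : Prop where
  sub : ∀ x y, Rel E O x y → (E x w ∧ E y w)
  irr : ∀ x, ¬ Rel E O x x
  tr : ∀ x y z, Rel E O x y → Rel E O y z → Rel E O x z
  tri : ∀ x y, E x w → E y w → (Rel E O x y ∨ x = y ∨ Rel E O y x)
  dense : ∀ x y, Rel E O x y → ∃ z, Rel E O x z ∧ Rel E O z y
  ends : ∀ x, E x w → ((∃ y, Rel E O x y) ∧ ∃ y, Rel E O y x)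

theorem isDLO_of {w O : M} (h : fDLO (propStr E) w O) : IsDLO E w O where
  sub := h.1
  irr := h.2.1
  tr := h.2.2.1
  tri := fun x y hx hy => h.2.2.2.1 x y hx hy
  dense := h.2.2.2.2.1
  ends := h.2.2.2.2.2

/-- `c` is a (lower, bounded, open) cut of `(w, O)` -/
def IsCut (E : M → M → Prop) (w O c : M) : Prop :=
  (∀ x, E x c → E x w) ∧ (∃ x, E x c) ∧ (∃ x, E x w ∧ (E x c → False)) ∧
  (∀ x y, E x c → Rel E O y x → E y c) ∧ ∀ x, E x c → ∃ y, E y c ∧ Rel E O x y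

/-- the principal cut of `q` -/
def IsPC (E : M → M → Prop) (O q c : M) : Prop := ∀ x, E x c ↔ Rel E O x q

theorem exists_pc (hE : IsZFModel E) {w O : M} (h : IsDLO E w O) (q : M) :
    ∃ c, IsPC E O q c := by
  obtain ⟨c, hc⟩ := sep1 hE (fRel codeStr 1 0 2 3) (asg O q q q q) w
    (P := fun x => Rel E O x q) (fun z => Iff.rfl)
  exact ⟨c, fun x => (hc x).trans ⟨And.right, fun h1 => ⟨(h.sub _ _ h1).1, h1⟩⟩⟩

theorem isCut_pc {w O q c : M} (h : IsDLO E w O) (hq : E q w) (hc : IsPC E O q c) :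
    IsCut E w O c := by
  refine ⟨fun x hx => (h.sub _ _ ((hc x).1 hx)).1, ?_, ?_, ?_, ?_⟩
  · obtain ⟨y, hy⟩ := (h.ends q hq).2
    exact ⟨y, (hc y).2 hy⟩
  · exact ⟨q, hq, fun h1 => h.irr _ ((hc q).1 h1)⟩
  · intro x y hx hyx
    exact (hc y).2 (h.tr _ _ _ hyx ((hc x).1 hx))
  · intro x hx
    obtain ⟨z, hxz, hzq⟩ := h.dense _ _ ((hc x).1 hx)
    exact ⟨z, (hc z).2 hzq, hxz⟩

theorem lt_of_not_mem {w O c x y : M} (h : IsDLO E w O) (hc : IsCut E w O c) (hx : E x c)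
    (hy : E y w) (hyc : ¬ E y c) : Rel E O x y := by
  rcases h.tri x y (hc.1 x hx) hy with h1 | h1 | h1
  · exact h1
  · rw [h1] at hx; exact (hyc hx).elim
  · exact (hyc (hc.2.2.2.1 x y hx h1)).elim

/-- strict inclusion of cuts -/
def CLt (E : M → M → Prop) (w O a b : M) : Prop :=
  IsCut E w O a ∧ IsCut E w O b ∧ (∀ x, E x a → E x b) ∧ (a = b → False)

theorem clt_of {w O a b x : M} (h : IsDLO E w O) (ha : IsCut E w O a) (hb : IsCut E w O b)
    (hx : E x b) (hxa : ¬ E x a) : CLt E w O a b := by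
  refine ⟨ha, hb, fun y hy => ?_, fun e => hxa (e ▸ hx)⟩
  exact hb.2.2.2.1 x y hx (lt_of_not_mem h ha hy (hb.1 x hx) hxa)

theorem exists_of_clt (hE : IsZFModel E) {w O a b : M} (h : CLt E w O a b) :
    ∃ x, E x b ∧ ¬ E x a := by
  by_contra hcon
  push Not at hcon
  exact h.2.2.2 (hE.ext _ _ fun z => ⟨h.2.2.1 z, hcon z⟩)

theorem clt_trans (hE : IsZFModel E) {w O a b c : M} (h : IsDLO E w O) (h1 : CLt E w O a b)
    (h2 : CLt E w O b c) : CLt E w O a c := by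
  obtain ⟨x, hx, hxa⟩ := exists_of_clt hE h1
  exact clt_of h h1.1 h2.2.1 (h2.2.2.1 x hx) hxa

/-- a principal cut between two cuts -/
theorem exists_pc_between (hE : IsZFModel E) {w O a b : M} (h : IsDLO E w O)
    (hab : CLt E w O a b) : ∃ q c, E q w ∧ IsPC E O q c ∧ CLt E w O a c ∧ CLt E w O c b := by
  obtain ⟨x, hx, hxa⟩ := exists_of_clt hE hab
  obtain ⟨q, hq, hxq⟩ := hab.2.1.2.2.2.2 x hx
  obtain ⟨c, hc⟩ := exists_pc hE h q
  have hqw := hab.2.1.1 q hq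
  have hcut := isCut_pc h hqw hc
  exact ⟨q, c, hqw, hc, clt_of h hab.1 hcut ((hc x).2 hxq) hxa,
    clt_of h hcut hab.2.1 hq fun h1 => h.irr _ ((hc q).1 h1)⟩

/-- the cuts of a dense linear order on `ω` form the real line -/
theorem exists_line (hE : IsZFModel E) {w O : M} (h : IsDLO E w O) (hne : ∃ q, E q w) :
    ∃ R L, IsRealLine E w R L ∧ (∀ c, E c R ↔ IsCut E w O c) ∧
      ∀ a b, Rel E L a b ↔ CLt E w O a b := by
  obtain ⟨Pw, hPw⟩ := hE.power w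
  obtain ⟨R, hR0⟩ := sep1 hE (fCut codeStr 1 2 0 3) (asg w O O O O) Pw
    (P := fun c => IsCut E w O c) (fun z => Iff.rfl)
  have hR : ∀ c, E c R ↔ IsCut E w O c := fun c =>
    (hR0 c).trans ⟨And.right, fun h1 => ⟨(hPw c).2 h1.1, h1⟩⟩
  obtain ⟨L, _, hL0⟩ := exists_rel hE R R (fInc codeStr 0 1) (asg w w w w w)
    (P := fun a b => (∀ x, E x a → E x b) ∧ (a = b → False)) (fun z => Iff.rfl)
  have hL : ∀ a b, Rel E L a b ↔ CLt E w O a b := by
    intro a b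
    rw [hL0, hR, hR]
    exact Iff.rfl
  have hle : ∀ a b, (Rel E L a b ∨ a = b) → ∀ x, E x a → E x b := by
    rintro a b (h1 | h1) x hx
    · exact ((hL a b).1 h1).2.2.1 x hx
    · rw [← h1]; exact hx
  have hle' : ∀ a b, IsCut E w O a → IsCut E w O b → (∀ x, E x a → E x b) →
      (Rel E L a b ∨ a = b) := by
    intro a b ha hb hab
    by_cases e : a = b
    · exact Or.inr e
    · exact Or.inl ((hL a b).2 ⟨ha, hb, hab, e⟩)
  refine ⟨R, L, ⟨⟨?_, ?_, ?_, ?_⟩, ?_, ?_, ?_, ?_, ?_⟩, hR, hL⟩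
  · intro x y hxy
    have h1 := (hL x y).1 hxy
    exact ⟨(hR x).2 h1.1, (hR y).2 h1.2.1⟩
  · intro x hx
    exact ((hL x x).1 hx).2.2.2 rfl
  · intro x y z hxy hyz
    exact (hL x z).2 (clt_trans hE h ((hL x y).1 hxy) ((hL y z).1 hyz))
  · intro x y hx hy
    rw [hL, hL]
    have hx' := (hR x).1 hx
    have hy' := (hR y).1 hy
    by_cases h1 : ∀ z, E z x → E z y
    · by_cases e : x = y
      · exact Or.inr (Or.inl e)
      · exact Or.inl ⟨hx', hy', h1, e⟩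
    · push Not at h1
      obtain ⟨z, hz, hzy⟩ := h1
      exact Or.inr (Or.inr (clt_of h hy' hx' hz hzy))
  · obtain ⟨q, hq⟩ := hne
    obtain ⟨c, hc⟩ := exists_pc hE h q
    exact ⟨c, (hR c).2 (isCut_pc h hq hc)⟩
  · intro x y hxy
    obtain ⟨q, c, _, _, h1, h2⟩ := exists_pc_between hE h ((hL x y).1 hxy)
    exact ⟨c, (hL _ _).2 h1, (hL _ _).2 h2⟩
  · intro x hx
    have hx' := (hR x).1 hx
    constructor
    · obtain ⟨q, hq, hqx⟩ := hx'.2.2.1
      obtain ⟨r, hr⟩ := (h.ends q hq).1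
      obtain ⟨c, hc⟩ := exists_pc hE h r
      exact ⟨c, (hL _ _).2 (clt_of h hx' (isCut_pc h (h.sub _ _ hr).2 hc) ((hc q).2 hr) hqx)⟩
    · obtain ⟨q, hq⟩ := hx'.2.1
      obtain ⟨c, hc⟩ := exists_pc hE h q
      exact ⟨c, (hL _ _).2 (clt_of h (isCut_pc h (hx'.1 q hq) hc) hx' hq
        fun h1 => h.irr _ ((hc q).1 h1))⟩
  · rintro S hS ⟨x, hx⟩ ⟨b, hb⟩
    obtain ⟨s, hs⟩ := hE.union S
    have hb' := (hR b).1 hb.1
    have hcut : IsCut E w O s := by
      refine ⟨fun z hz => ?_, ?_, ?_, ?_, ?_⟩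
      · obtain ⟨c, hc, hzc⟩ := (hs z).1 hz
        exact ((hR c).1 (hS c hc)).1 z hzc
      · obtain ⟨z, hz⟩ := ((hR x).1 (hS x hx)).2.1
        exact ⟨z, (hs z).2 ⟨x, hx, hz⟩⟩
      · obtain ⟨z, hz, hzb⟩ := hb'.2.2.1
        refine ⟨z, hz, fun h1 => ?_⟩
        obtain ⟨c, hc, hzc⟩ := (hs z).1 h1
        exact hzb (hle c b (hb.2 c hc) z hzc)
      · intro z y hz hyz
        obtain ⟨c, hc, hzc⟩ := (hs z).1 hz
        exact (hs y).2 ⟨c, hc, ((hR c).1 (hS c hc)).2.2.2.1 z y hzc hyz⟩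
      · intro z hz
        obtain ⟨c, hc, hzc⟩ := (hs z).1 hz
        obtain ⟨y, hy, hzy⟩ := ((hR c).1 (hS c hc)).2.2.2.2 z hzc
        exact ⟨y, (hs y).2 ⟨c, hc, hy⟩, hzy⟩
    refine ⟨s, ⟨(hR s).2 hcut, fun c hc => ?_⟩, fun b' hb'' => ?_⟩
    · exact hle' c s ((hR c).1 (hS c hc)) hcut fun z hz => (hs z).2 ⟨c, hc, hz⟩
    · refine hle' s b' hcut ((hR b').1 hb''.1) fun z hz => ?_
      obtain ⟨c, hc, hzc⟩ := (hs z).1 hz
      exact hle c b' (hb''.2 c hc) z hzc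
  · obtain ⟨e, he1, he2⟩ := exists_rel hE w R (fEnum codeStr 0 1 2) (asg O O O O O)
      (P := fun q c => ∀ x, E x c ↔ Rel E O x q) (fun z => Iff.rfl)
    refine ⟨e, ⟨he1, ?_⟩, ?_, ?_, ?_⟩
    · intro x y y' hy hy'
      have h1 := ((he2 x y).1 hy).2.2
      have h2 := ((he2 x y').1 hy').2.2
      exact hE.ext _ _ fun z => (h1 z).trans (h2 z).symm
    · intro n
      constructor
      · intro hn
        obtain ⟨c, hc⟩ := exists_pc hE h n
        exact ⟨c, (he2 n c).2 ⟨hn, (hR c).2 (isCut_pc h hn hc), hc⟩⟩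
      · rintro ⟨c, hc⟩
        exact ((he2 n c).1 hc).1
    · intro n x hx
      exact ((he2 n x).1 hx).2.1
    · intro x y hxy
      obtain ⟨q, c, hq, hc, h1, h2⟩ := exists_pc_between hE h ((hL x y).1 hxy)
      exact ⟨q, c, (he2 q c).2 ⟨hq, (hR c).2 (isCut_pc h hq hc), hc⟩, (hL _ _).2 h1,
        (hL _ _).2 h2⟩

/-- the forced facts imply the conclusion -/
theorem main (hE : IsZFModel E) {w O D : M} (hw : IsOmega E w) (hO : fDLO (propStr E) w O)
    (hD : fDense (propStr E) w O D) (hB : fBdd (propStr E) w D) :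
    ∃ w R L X : M, IsOmega E w ∧ IsRealLine E w R L ∧ (∀ x, E x X → E x R) ∧
      ZeroDim E L X ∧ ¬ NCompact E w L X := by
  have h := isDLO_of hO
  obtain ⟨hD1, hD2, hD3⟩ := hD
  have hD1' : ∀ d, E d D → IsCut E w O d := hD1
  have hD2' : ∀ x y, Rel E O x y → ∃ d, E d D ∧ E x d ∧ (E y d → False) := hD2
  have hD3' : ∀ d, E d D → ∀ x, E x w → (∀ y, E y d ↔ Rel E O y x) → False := hD3
  have hB' : ∀ g, IsFun E g → (∀ k, E k w → ∃ d, Rel E g k d) →
      (∀ k d, Rel E g k d → (E k w ∧ E d D)) →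
      ∃ m, E m w ∧ ∀ k d, Rel E g k d → E m d → False := hB
  obtain ⟨R, L, hRL, hR, hL⟩ := exists_line hE h (by
    obtain ⟨e, he, _⟩ := hw.2.1
    exact ⟨e, he⟩)
  obtain ⟨X, hX⟩ := sep1 hE (fNotMem codeStr 0 1 2) (asg D D D D D) R
    (P := fun z => ¬ E z D) (fun z => Iff.rfl)
  have hXd : ∀ x y, Rel E L x y → ∃ z, E z X ∧ Rel E L x z ∧ Rel E L z y := by
    intro x y hxy
    obtain ⟨q, c, hq, hc, h1, h2⟩ := exists_pc_between hE h ((hL x y).1 hxy)
    exact ⟨c, (hX c).2 ⟨(hR c).2 (isCut_pc h hq hc), fun h3 => hD3' c h3 q hq hc⟩,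
      (hL _ _).2 h1, (hL _ _).2 h2⟩
  have hDd : ∀ x y, Rel E L x y → ∃ z, E z D ∧ Rel E L x z ∧ Rel E L z y := by
    intro x y hxy
    have hxy' := (hL x y).1 hxy
    obtain ⟨p, hp, hpx⟩ := exists_of_clt hE hxy'
    obtain ⟨q, hq, hpq⟩ := hxy'.2.1.2.2.2.2 p hp
    obtain ⟨r, hr, hqr⟩ := hxy'.2.1.2.2.2.2 q hq
    obtain ⟨d, hdD, hqd, hrd⟩ := hD2' q r hqr
    have hd := hD1' d hdD
    refine ⟨d, hdD, (hL _ _).2 (clt_of h hxy'.1 hd (hd.2.2.2.1 q p hqd hpq) hpx),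
      (hL _ _).2 (clt_of h hd hxy'.2.1 hr hrd)⟩
  refine ⟨w, R, L, X, hw, hRL, fun x hx => ((hX x).1 hx).1, zeroDim hE hRL hX hDd,
    not_ncompact hE hRL hX hXd ?_⟩
  intro g hg1 hg2 hg3
  obtain ⟨m, hm, hm2⟩ := hB' g hg1 hg2 hg3
  obtain ⟨m', hm'⟩ := (h.ends m hm).1
  obtain ⟨c, hc⟩ := exists_pc hE h m'
  have hcut := isCut_pc h (h.sub _ _ hm').2 hc
  refine ⟨c, (hR c).2 hcut, fun n d hnd => (hL d c).2 ?_⟩
  exact clt_of h (hD1' d (hg3 n d hnd).2) hcut ((hc m).2 hm') (hm2 n d hnd)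

end Cuts

/-- **There is a model of `ZF` in which some zero-dimensional subspace `X` of the real line is not
`ℕ`-compact.** -/
theorem result : ∃ (M : Type) (E : M → M → Prop), IsZFModel E ∧
    ∃ w R L X : M, IsOmega E w ∧ IsRealLine E w R L ∧ (∀ x, E x X → E x R) ∧
      ZeroDim E L X ∧ ¬ NCompact E w L X := by
  let x₀ : ℕ → CC.sys.HN := CC.asg CC.nW CC.nO CC.nD CC.nD
  obtain ⟨M, E, Nm, hE, h1, h2, h3⟩ := CC.sys.exists_zf_model (⊤ : CC) x₀
  refine ⟨M, E, hE, ?_⟩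
  choose m hm using h2
  refine main hE (w := m 0) (O := m 1) (D := m 2) ?_ ?_ ?_ ?_
  · exact h3 (fOmega codeStr 0 1) m x₀ hm (CC.sys.forced_omega ⊤)
  · exact h3 (fDLO codeStr 0 1 2) m x₀ hm (CC.forced_DLO ⊤)
  · exact h3 (fDense codeStr 0 1 2 3) m x₀ hm (CC.forced_dense ⊤)
  · exact h3 (fBdd codeStr 0 2 3) m x₀ hm (CC.forced_bdd ⊤)

end Pool.Agent.Results.MP_1eff47_lc.NotNCompact
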